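import Pool.Agent.K1H53.EX.Plan

/-! # Monotonicity, unit influence and finite speed of the exclusion process -/

set_option autoImplicit false

open MeasureTheory Filter Topology

namespace Pool.Agent.K1H20.EX

open Pool.Agent.K1H53.EX

/-- Ordered pairs of configurations with at most one discrepancy. -/
def D1 : Set Cfg2 := {w | (∀ x, (w x).2 = true → (w x).1 = true) ∧
  ∀ x y, (w x).1 ≠ (w x).2 → (w y).1 ≠ (w y).2 → x = y}

theorem a2_prop : ∀ s r : Bool × Bool, (s.2 = true → s.1 = true) → (r.2 = true → r.1 = true) →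
    ¬ (s.1 ≠ s.2 ∧ r.1 ≠ r.2) →
    ((a2 (s, r)).1.2 = true → (a2 (s, r)).1.1 = true) ∧
    ((a2 (s, r)).2.2 = true → (a2 (s, r)).2.1 = true) ∧
    ¬ ((a2 (s, r)).1.1 ≠ (a2 (s, r)).1.2 ∧ (a2 (s, r)).2.1 ≠ (a2 (s, r)).2.2) ∧
    ((a2 (s, r)).1.1 ≠ (a2 (s, r)).1.2 → s.1 ≠ s.2 ∨ r.1 ≠ r.2) ∧
    ((a2 (s, r)).2.1 ≠ (a2 (s, r)).2.2 → s.1 ≠ s.2 ∨ r.1 ≠ r.2) ∧
    ((s.1 ≠ s.2 ∨ r.1 ≠ r.2) →
      (a2 (s, r)).1.1 ≠ (a2 (s, r)).1.2 ∨ (a2 (s, r)).2.1 ≠ (a2 (s, r)).2.2) := by
  rintro ⟨(_ | _), (_ | _)⟩ ⟨(_ | _), (_ | _)⟩ <;> simp [a2, a1]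

theorem T_at_snd (w : Cfg2) {u v : ℤ} (h : u ≠ v) : T a2 u v w v = (a2 (w u, w v)).2 := by
  simp [T, h]

theorem T_at_fst (w : Cfg2) {u v : ℤ} (h : u ≠ v) : T a2 u v w u = (a2 (w u, w v)).1 := by
  simp [T, h]

theorem T_at_ne (w : Cfg2) {u v x : ℤ} (hu : x ≠ u) (hv : x ≠ v) : T a2 u v w x = w x := by
  by_cases h : u = v
  · simp [T, h]
  · simp [T, h, hu, hv]

theorem pair_ok {w : Cfg2} (hw : w ∈ D1) {u v : ℤ} (h : u ≠ v) :
    ¬ ((w u).1 ≠ (w u).2 ∧ (w v).1 ≠ (w v).2) := fun h' => h (hw.2 u v h'.1 h'.2)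

theorem T_mem {w : Cfg2} (hw : w ∈ D1) (u v : ℤ) : T a2 u v w ∈ D1 := by
  by_cases h : u = v
  · have : T a2 u v w = w := by simp [T, h]
    rw [this]; exact hw
  obtain ⟨p1, p2, p3, p4, p5, p6⟩ := a2_prop (w u) (w v) (hw.1 u) (hw.1 v) (pair_ok hw h)
  have hat : ∀ x, (T a2 u v w x).1 ≠ (T a2 u v w x).2 →
      ((x = u ∨ x = v) ∧ ((w u).1 ≠ (w u).2 ∨ (w v).1 ≠ (w v).2)) ∨
      (x ≠ u ∧ x ≠ v ∧ (w x).1 ≠ (w x).2) := by
    intro x hx
    by_cases hxu : x = u
    · subst hxu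
      rw [T_at_fst w h] at hx
      exact Or.inl ⟨Or.inl rfl, p4 hx⟩
    · by_cases hxv : x = v
      · subst hxv
        rw [T_at_snd w h] at hx
        exact Or.inl ⟨Or.inr rfl, p5 hx⟩
      · rw [T_at_ne w hxu hxv] at hx
        exact Or.inr ⟨hxu, hxv, hx⟩
  refine ⟨?_, ?_⟩
  · intro x
    by_cases hxu : x = u
    · subst hxu
      rw [T_at_fst w h]; exact p1
    · by_cases hxv : x = v
      · subst hxv
        rw [T_at_snd w h]; exact p2
      · rw [T_at_ne w hxu hxv]; exact hw.1 x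
  · intro x y hx hy
    rcases hat x hx with ⟨h1, h1'⟩ | ⟨h1, h2, h3⟩ <;> rcases hat y hy with ⟨k1, k1'⟩ | ⟨k1, k2, k3⟩
    · rcases h1 with rfl | rfl <;> rcases k1 with rfl | rfl
      · rfl
      · exact absurd ⟨by rwa [T_at_fst w h] at hx, by rwa [T_at_snd w h] at hy⟩ p3
      · exact absurd ⟨by rwa [T_at_fst w h] at hy, by rwa [T_at_snd w h] at hx⟩ p3
      · rfl
    · rcases h1' with h1' | h1'
      · exact absurd (hw.2 y u k3 h1') k1
      · exact absurd (hw.2 y v k3 h1') k2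
    · rcases k1' with k1' | k1'
      · exact absurd (hw.2 x u h3 k1') h1
      · exact absurd (hw.2 x v h3 k1') h2
    · exact hw.2 x y h3 k3

theorem loc {w : Cfg2} (hw : w ∈ D1) {y : ℤ} (hy : (w y).1 ≠ (w y).2) (u v : ℤ) :
    ∃ y', (T a2 u v w y').1 ≠ (T a2 u v w y').2 ∧
      (y' = y ∨ (u = y ∧ y' = v) ∨ (v = y ∧ y' = u)) := by
  by_cases h : u = v
  · refine ⟨y, ?_, Or.inl rfl⟩
    have : T a2 u v w = w := by simp [T, h]
    rw [this]; exact hy
  obtain ⟨p1, p2, p3, p4, p5, p6⟩ := a2_prop (w u) (w v) (hw.1 u) (hw.1 v) (pair_ok hw h)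
  by_cases hu : u = y
  · subst hu
    rcases p6 (Or.inl hy) with h1 | h1
    · exact ⟨u, by rwa [T_at_fst w h], Or.inl rfl⟩
    · exact ⟨v, by rwa [T_at_snd w h], Or.inr (Or.inl ⟨rfl, rfl⟩)⟩
  · by_cases hv : v = y
    · subst hv
      rcases p6 (Or.inr hy) with h1 | h1
      · exact ⟨u, by rwa [T_at_fst w h], Or.inr (Or.inr ⟨rfl, rfl⟩)⟩
      · exact ⟨v, by rwa [T_at_snd w h], Or.inl rfl⟩
    · exact ⟨y, by rwa [T_at_ne w (Ne.symm hu) (Ne.symm hv)], Or.inl rfl⟩

/-- Bounds on `D1` propagate. -/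
theorem Q_le {p : ℤ → ℝ} {Q : ℝ → C(Cfg2, ℝ) →L[ℝ] C(Cfg2, ℝ)} (hQ : IsSG a2 p Q)
    (h : C(Cfg2, ℝ)) (c : ℝ) (hc : ∀ w ∈ D1, h w ≤ c) {t : ℝ} (ht : 0 ≤ t) :
    ∀ w ∈ D1, Q t h w ≤ c := by
  refine hQ.conv {h | ∀ w ∈ D1, h w ≤ c} ?_ ?_ ?_ t ht h hc
  · have : {h : C(Cfg2, ℝ) | ∀ w ∈ D1, h w ≤ c} = ⋂ w ∈ D1, {h : C(Cfg2, ℝ) | h w ≤ c} := by
      ext h; simp
    rw [this]
    exact isClosed_biInter fun w _ =>
      isClosed_le (ContinuousEvalConst.continuous_eval_const w) continuous_const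
  · intro f hf g hg a b ha hb hab w hw
    have h1 := hf w hw
    have h2 := hg w hw
    simp only [ContinuousMap.add_apply, ContinuousMap.smul_apply, smul_eq_mul]
    have h3 := mul_le_mul_of_nonneg_left h1 ha
    have h4 := mul_le_mul_of_nonneg_left h2 hb
    have h5 : a * c + b * c = c := by rw [← add_mul, hab, one_mul]
    linarith
  · intro f hf u v w hw
    exact hf _ (T_mem hw u v)

theorem Q_ge {p : ℤ → ℝ} {Q : ℝ → C(Cfg2, ℝ) →L[ℝ] C(Cfg2, ℝ)} (hQ : IsSG a2 p Q)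
    (h : C(Cfg2, ℝ)) (c : ℝ) (hc : ∀ w ∈ D1, c ≤ h w) {t : ℝ} (ht : 0 ≤ t) :
    ∀ w ∈ D1, c ≤ Q t h w := by
  intro w hw
  have := Q_le hQ (-h) (-c) (fun w hw => by simpa using hc w hw) ht w hw
  simp only [map_neg, ContinuousMap.neg_apply] at this
  linarith

/-- The trapezoid. -/
noncomputable def V (A : ℕ) (R : ℝ) (y : ℤ) : ℝ := max 0 (1 - max 0 (|(y : ℝ)| - A) / R)

theorem V_nonneg (A : ℕ) (R : ℝ) (y : ℤ) : 0 ≤ V A R y := le_max_left _ _

theorem V_lip (A : ℕ) {R : ℝ} (hR : 0 < R) (y z : ℤ) : V A R z - V A R y ≤ |(z : ℝ) - y| / R := by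
  have h1 : |V A R z - V A R y| ≤ |(1 - max 0 (|(z : ℝ)| - A) / R) - (1 - max 0 (|(y : ℝ)| - A) / R)| := by
    unfold V
    have := abs_max_sub_max_le_max (0:ℝ) (1 - max 0 (|(z : ℝ)| - A) / R) 0
      (1 - max 0 (|(y : ℝ)| - A) / R)
    simpa using this
  have h2 : (1 - max 0 (|(z : ℝ)| - A) / R) - (1 - max 0 (|(y : ℝ)| - A) / R)
      = (max 0 (|(y : ℝ)| - A) - max 0 (|(z : ℝ)| - A)) / R := by ring
  have h3 : |max 0 (|(y : ℝ)| - (A : ℝ)) - max 0 (|(z : ℝ)| - A)| ≤ |(|(y : ℝ)| - A) - (|(z : ℝ)| - A)| := by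
    have := abs_max_sub_max_le_max (0:ℝ) (|(y : ℝ)| - A) 0 (|(z : ℝ)| - A)
    simpa using this
  have h4 : |(|(y : ℝ)| - (A : ℝ)) - (|(z : ℝ)| - A)| ≤ |(z : ℝ) - y| := by
    rw [show (|(y : ℝ)| - (A : ℝ)) - (|(z : ℝ)| - A) = |(y : ℝ)| - |(z : ℝ)| by ring, abs_sub_comm (z : ℝ)]
    exact abs_abs_sub_abs_le_abs_sub _ _
  calc V A R z - V A R y ≤ |V A R z - V A R y| := le_abs_self _
    _ ≤ _ := h1
    _ = |max 0 (|(y : ℝ)| - (A : ℝ)) - max 0 (|(z : ℝ)| - A)| / R := by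
        rw [h2, abs_div, abs_of_pos hR]
    _ ≤ |(z : ℝ) - y| / R := div_le_div_of_nonneg_right (h3.trans h4) hR.le

theorem V_lip' (A : ℕ) {R : ℝ} (hR : 0 < R) (y z : ℤ) :
    |V A R z - V A R y| ≤ |(z : ℝ) - y| / R := by
  rw [abs_le]
  constructor
  · have := V_lip A hR z y
    rw [abs_sub_comm] at this
    linarith
  · exact V_lip A hR y z

/-- The test function. -/
noncomputable def Psi (A : ℕ) (R : ℝ) (Λ : Finset ℤ) : C(Cfg2, ℝ) :=
  ⟨fun w => ∑ y ∈ Λ, V A R y * (if (w y).1 ≠ (w y).2 then 1 else 0), by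
    refine continuous_finsetSum _ fun y _ => ?_
    refine continuous_const.mul ?_
    exact (continuous_of_discreteTopology
      (f := fun b : Bool × Bool => if b.1 ≠ b.2 then (1 : ℝ) else 0)).comp (continuous_apply y)⟩

theorem Psi_dep (A : ℕ) (R : ℝ) (Λ : Finset ℤ) :
    DependsOn (fun w => Psi A R Λ w) (Λ : Set ℤ) := by
  intro w w' h
  show ∑ y ∈ Λ, V A R y * (if (w y).1 ≠ (w y).2 then 1 else 0)
    = ∑ y ∈ Λ, V A R y * (if (w' y).1 ≠ (w' y).2 then 1 else 0)
  refine Finset.sum_congr rfl fun y hy => ?_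
  rw [h y (by exact_mod_cast hy)]

theorem Psi_at {A : ℕ} {R : ℝ} {Λ : Finset ℤ} (hΛ : ∀ y, y ∉ Λ → V A R y = 0) {w : Cfg2}
    (hw : w ∈ D1) {y : ℤ} (hy : (w y).1 ≠ (w y).2) : Psi A R Λ w = V A R y := by
  show ∑ z ∈ Λ, V A R z * (if (w z).1 ≠ (w z).2 then 1 else 0) = V A R y
  by_cases h : y ∈ Λ
  · rw [Finset.sum_eq_single y]
    · rw [if_pos hy, mul_one]
    · intro z _ hz
      rw [if_neg, mul_zero]
      intro h'
      exact hz (hw.2 z y h' hy)
    · intro h'; exact absurd h h'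
  · rw [hΛ y h]
    refine Finset.sum_eq_zero fun z hz => ?_
    rw [if_neg, mul_zero]
    intro h'
    exact h (by rw [← hw.2 z y h' hy]; exact hz)

theorem Psi_none {A : ℕ} {R : ℝ} {Λ : Finset ℤ} {w : Cfg2}
    (hy : ∀ y, ¬ (w y).1 ≠ (w y).2) : Psi A R Λ w = 0 := by
  show ∑ z ∈ Λ, V A R z * (if (w z).1 ≠ (w z).2 then 1 else 0) = 0
  refine Finset.sum_eq_zero fun z hz => ?_
  rw [if_neg (hy z), mul_zero]

theorem hasSum_row {p : ℤ → ℝ} (hm : Summable (fun m : ℤ => |(m : ℝ)| * p m)) (y : ℤ) :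
    HasSum (fun q : ℤ × ℤ => if q.1 = y then |(q.2 : ℝ) - q.1| * p (q.2 - q.1) else 0)
      (∑' m : ℤ, |(m : ℝ)| * p m) := by
  have hinj : Function.Injective (fun m : ℤ => ((y, y + m) : ℤ × ℤ)) := by
    intro a b h
    simpa using h
  refine (hinj.hasSum_iff ?_).1 ?_
  · rintro ⟨u, v⟩ h
    rw [if_neg]
    intro h'
    apply h
    simp only at h'
    exact ⟨v - u, by simp [h']⟩
  · convert hm.hasSum using 1
    funext m
    simp

theorem hasSum_col {p : ℤ → ℝ} (hm : Summable (fun m : ℤ => |(m : ℝ)| * p m)) (y : ℤ) :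
    HasSum (fun q : ℤ × ℤ => if q.2 = y then |(q.2 : ℝ) - q.1| * p (q.2 - q.1) else 0)
      (∑' m : ℤ, |(m : ℝ)| * p m) := by
  have hinj : Function.Injective (fun m : ℤ => ((y - m, y) : ℤ × ℤ)) := by
    intro a b h
    simpa using h
  refine (hinj.hasSum_iff ?_).1 ?_
  · rintro ⟨u, v⟩ h
    rw [if_neg]
    intro h'
    apply h
    simp only at h'
    exact ⟨v - u, by simp [h']⟩
  · convert hm.hasSum using 1
    funext m
    simp

theorem genL_le {p : ℤ → ℝ} (hp : ∀ m, 0 ≤ p m) (hm : Summable (fun m : ℤ => |(m : ℝ)| * p m))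
    {A : ℕ} {R : ℝ} (hR : 0 < R) {Λ : Finset ℤ} (hΛ : ∀ y, y ∉ Λ → V A R y = 0) {w : Cfg2}
    (hw : w ∈ D1) :
    genL a2 p (fun ζ => Psi A R Λ ζ) w ≤ 2 * (∑' m : ℤ, |(m : ℝ)| * p m) / R := by
  have hm0 : 0 ≤ ∑' m : ℤ, |(m : ℝ)| * p m := tsum_nonneg fun m => mul_nonneg (abs_nonneg _) (hp m)
  by_cases hex : ∃ y, (w y).1 ≠ (w y).2
  · obtain ⟨y, hy⟩ := hex
    have hG := ((hasSum_row hm y).add (hasSum_col hm y)).div_const R
    have hle : ∀ q : ℤ × ℤ, |p (q.2 - q.1) * (Psi A R Λ (T a2 q.1 q.2 w) - Psi A R Λ w)| ≤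
        ((if q.1 = y then |(q.2 : ℝ) - q.1| * p (q.2 - q.1) else 0) +
          (if q.2 = y then |(q.2 : ℝ) - q.1| * p (q.2 - q.1) else 0)) / R := by
      rintro ⟨u, v⟩
      simp only
      obtain ⟨y', hy', hcase⟩ := loc hw hy u v
      rw [Psi_at hΛ (T_mem hw u v) hy', Psi_at hΛ hw hy, abs_mul, abs_of_nonneg (hp _)]
      have n1 : 0 ≤ (if u = y then |(v : ℝ) - u| * p (v - u) else 0) := by
        split_ifs
        · exact mul_nonneg (abs_nonneg _) (hp _)
        · exact le_refl _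
      have n2 : 0 ≤ (if v = y then |(v : ℝ) - u| * p (v - u) else 0) := by
        split_ifs
        · exact mul_nonneg (abs_nonneg _) (hp _)
        · exact le_refl _
      rcases hcase with rfl | ⟨rfl, rfl⟩ | ⟨rfl, rfl⟩
      · rw [sub_self, abs_zero, mul_zero]
        exact div_nonneg (add_nonneg n1 n2) hR.le
      · have := V_lip' A hR u y'
        rw [if_pos rfl]
        calc p (y' - u) * |V A R y' - V A R u| ≤ p (y' - u) * (|(y' : ℝ) - u| / R) :=
              mul_le_mul_of_nonneg_left this (hp _)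
          _ = (|(y' : ℝ) - u| * p (y' - u)) / R := by ring
          _ ≤ _ := div_le_div_of_nonneg_right (by linarith) hR.le
      · have := V_lip' A hR v y'
        rw [if_pos (rfl : v = v)]
        calc p (v - y') * |V A R y' - V A R v| ≤ p (v - y') * (|(y' : ℝ) - v| / R) :=
              mul_le_mul_of_nonneg_left this (hp _)
          _ = (|(v : ℝ) - y'| * p (v - y')) / R := by rw [abs_sub_comm]; ring
          _ ≤ _ := div_le_div_of_nonneg_right (by linarith) hR.le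
    have hS : Summable (fun q : ℤ × ℤ =>
        p (q.2 - q.1) * (Psi A R Λ (T a2 q.1 q.2 w) - Psi A R Λ w)) :=
      Summable.of_norm_bounded hG.summable (fun q => by rw [Real.norm_eq_abs]; exact hle q)
    have h1 : genL a2 p (fun ζ => Psi A R Λ ζ) w ≤
        ∑' q : ℤ × ℤ, ((if q.1 = y then |(q.2 : ℝ) - q.1| * p (q.2 - q.1) else 0) +
          (if q.2 = y then |(q.2 : ℝ) - q.1| * p (q.2 - q.1) else 0)) / R := by
      unfold genL
      exact Summable.tsum_le_tsum (fun q => (le_abs_self _).trans (hle q)) hS hG.summable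
    rw [hG.tsum_eq] at h1
    calc _ ≤ _ := h1
      _ = _ := by ring
  · push Not at hex
    have h0 : genL a2 p (fun ζ => Psi A R Λ ζ) w = 0 := by
      unfold genL
      have : (fun q : ℤ × ℤ => p (q.2 - q.1) * (Psi A R Λ (T a2 q.1 q.2 w) - Psi A R Λ w))
          = fun _ => 0 := by
        funext q
        have hno : ∀ z, ¬ (T a2 q.1 q.2 w z).1 ≠ (T a2 q.1 q.2 w z).2 := by
          intro z hz
          by_cases huv : q.1 = q.2
          · have : T a2 q.1 q.2 w = w := by simp [T, huv]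
            rw [this] at hz
            exact hz (hex z)
          · obtain ⟨p1, p2, p3, p4, p5, p6⟩ :=
              a2_prop (w q.1) (w q.2) (hw.1 _) (hw.1 _) (pair_ok hw huv)
            by_cases hzu : z = q.1
            · rw [hzu, T_at_fst w huv] at hz
              rcases p4 hz with h | h
              · exact h (hex _)
              · exact h (hex _)
            · by_cases hzv : z = q.2
              · rw [hzv, T_at_snd w huv] at hz
                rcases p5 hz with h | h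
                · exact h (hex _)
                · exact h (hex _)
              · rw [T_at_ne w hzu hzv] at hz
                exact hz (hex z)
        rw [Psi_none hno, Psi_none (w := w) (fun z hz => hz (hex z)), sub_self, mul_zero]
      rw [this, tsum_zero]
    rw [h0]
    positivity

/-- The difference of the counts. -/
theorem cnt_diff (A : ℕ) {w : Cfg2} (hw : w ∈ D1) :
    cnt A (π1 w) - cnt A (π2 w) =
      ∑ x ∈ Finset.Icc (-(A : ℤ)) A, if (w x).1 ≠ (w x).2 then (1 : ℝ) else 0 := by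
  show (∑ x ∈ Finset.Icc (-(A : ℤ)) A, if (w x).1 = true then (1 : ℝ) else 0)
    - (∑ x ∈ Finset.Icc (-(A : ℤ)) A, if (w x).2 = true then (1 : ℝ) else 0) = _
  rw [← Finset.sum_sub_distrib]
  refine Finset.sum_congr rfl fun x _ => ?_
  have h := hw.1 x
  rcases h1 : (w x).1 with _ | _ <;> rcases h2 : (w x).2 with _ | _ <;> simp_all

theorem t_SPD : S_SG → S_MARG → S_SPD := by
  intro hSG hMARG p P hp hs hm hP A t ht η x hx
  obtain ⟨Q, hQ⟩ := hSG (Bool × Bool) a2 p hp hs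
  -- the pair
  set w : Cfg2 := fun z => (η z, Function.update η x false z) with hwdef
  have hwx : (w x).1 ≠ (w x).2 := by simp [hwdef, hx]
  have hw : w ∈ D1 := by
    refine ⟨?_, ?_⟩
    · intro z hz
      by_cases hzx : z = x
      · rw [hzx]; exact hx
      · simp only [hwdef, Function.update_of_ne hzx] at hz ⊢
        exact hz
    · have key : ∀ z, (w z).1 ≠ (w z).2 → z = x := by
        intro z hz
        by_contra hzx
        apply hz
        simp only [hwdef, Function.update_of_ne hzx]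
      intro y z hy hz
      rw [key y hy, key z hz]
  have e1 : π1 w = η := rfl
  have e2 : π2 w = Function.update η x false := rfl
  set h : C(Cfg2, ℝ) := (cnt A).comp π1 - (cnt A).comp π2 with hh
  have hdiff : P t (cnt A) η - P t (cnt A) (Function.update η x false) = Q t h w := by
    obtain ⟨m1, m2, -, -⟩ := hMARG p P Q hP hQ t ht (cnt A)
    rw [hh, map_sub, m1, m2]
    rfl
  have hval : ∀ w' ∈ D1, h w' = ∑ x ∈ Finset.Icc (-(A : ℤ)) A,
      if (w' x).1 ≠ (w' x).2 then (1 : ℝ) else 0 := fun w' hw' => cnt_diff A hw'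
  rw [hdiff]
  refine ⟨?_, ?_, ?_⟩
  · refine Q_ge hQ h 0 ?_ ht w hw
    intro w' hw'
    rw [hval w' hw']
    refine Finset.sum_nonneg fun z _ => ?_
    split_ifs <;> norm_num
  · refine Q_le hQ h 1 ?_ ht w hw
    intro w' hw'
    rw [hval w' hw']
    rw [Finset.sum_boole]
    have : (Finset.filter (fun x => (w' x).1 ≠ (w' x).2) (Finset.Icc (-(A : ℤ)) A)).card ≤ 1 := by
      rw [Finset.card_le_one]
      intro a ha b hb
      exact hw'.2 a b (Finset.mem_filter.1 ha).2 (Finset.mem_filter.1 hb).2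
    exact_mod_cast this
  · intro hxA
    have hxA' : (x : ℝ) < -(A : ℝ) := by exact_mod_cast hxA
    set R : ℝ := -(x : ℝ) - A with hRdef
    have hR : 0 < R := by linarith
    set Λ : Finset ℤ := Finset.Icc x (-x) with hΛdef
    have hV0 : ∀ y : ℤ, -(x : ℝ) ≤ |(y : ℝ)| → V A R y = 0 := by
      intro y hy
      unfold V
      apply max_eq_left
      have h1 : R ≤ max 0 (|(y : ℝ)| - A) := le_max_of_le_right (by linarith)
      have h2 : 1 ≤ max 0 (|(y : ℝ)| - A) / R := (one_le_div hR).2 h1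
      linarith
    have hΛ : ∀ y, y ∉ Λ → V A R y = 0 := by
      intro y hy
      apply hV0
      rw [hΛdef, Finset.mem_Icc, not_and_or, not_le, not_le] at hy
      rcases hy with hy | hy
      · have : (y : ℝ) < x := by exact_mod_cast hy
        have := neg_le_abs (y : ℝ)
        linarith
      · have : -(x : ℝ) < y := by exact_mod_cast hy
        have := le_abs_self (y : ℝ)
        linarith
    obtain ⟨g, hg⟩ := hQ.ex (Psi A R Λ) Λ (Psi_dep A R Λ)
    have hgen := hQ.gen (Psi A R Λ) g Λ (Psi_dep A R Λ) hg t ht w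
    have hgle : ∀ s, 0 ≤ s → Q s g w ≤ 2 * (∑' m : ℤ, |(m : ℝ)| * p m) / R := by
      intro s hs'
      refine Q_le hQ g _ ?_ hs' w hw
      intro w' hw'
      rw [hg w']
      exact genL_le hp hm hR hΛ hw'
    have hcont : ContinuousOn (fun s => Q s g w) (Set.Icc 0 t) := by
      have h1 : ContinuousOn (fun s => Q s g) (Set.Icc 0 t) :=
        (hQ.cont g).mono fun s hs' => hs'.1
      exact (ContinuousEvalConst.continuous_eval_const w).comp_continuousOn h1
    have hint : ∫ s in (0:ℝ)..t, Q s g w ≤ 2 * (∑' m : ℤ, |(m : ℝ)| * p m) / R * t := by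
      have h1 : ∫ s in (0:ℝ)..t, Q s g w ≤
          ∫ s in (0:ℝ)..t, (2 * (∑' m : ℤ, |(m : ℝ)| * p m) / R) := by
        refine intervalIntegral.integral_mono_on ht ?_ intervalIntegrable_const ?_
        · exact hcont.intervalIntegrable_of_Icc ht
        · intro s hs'
          exact hgle s hs'.1
      rw [intervalIntegral.integral_const, smul_eq_mul, sub_zero] at h1
      linarith
    have hPsi0 : Psi A R Λ w = 0 := by
      rw [Psi_at hΛ hw hwx]
      apply hV0
      exact neg_le_abs _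
    have hle : Q t h w ≤ Q t (Psi A R Λ) w := by
      have := Q_ge hQ (Psi A R Λ - h) 0 ?_ ht w hw
      · rw [map_sub, ContinuousMap.sub_apply] at this
        linarith
      · intro w' hw'
        rw [ContinuousMap.sub_apply, sub_nonneg, hval w' hw']
        show _ ≤ ∑ z ∈ Λ, V A R z * (if (w' z).1 ≠ (w' z).2 then 1 else 0)
        have hsub : Finset.Icc (-(A : ℤ)) A ⊆ Λ := by
          intro z hz
          rw [Finset.mem_Icc] at hz
          rw [hΛdef, Finset.mem_Icc]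
          constructor <;> omega
        calc _ ≤ ∑ z ∈ Finset.Icc (-(A : ℤ)) A, V A R z * (if (w' z).1 ≠ (w' z).2 then 1 else 0) := by
              refine Finset.sum_le_sum fun z hz => ?_
              have hV1 : V A R z = 1 := by
                unfold V
                rw [Finset.mem_Icc] at hz
                have h1 : -(A : ℝ) ≤ z := by exact_mod_cast hz.1
                have h2 : (z : ℝ) ≤ A := by exact_mod_cast hz.2
                have h3 : |(z : ℝ)| ≤ A := abs_le.2 ⟨h1, h2⟩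
                rw [max_eq_left (by linarith : |(z : ℝ)| - A ≤ 0)]
                simp
              rw [hV1, one_mul]
          _ ≤ _ := by
              refine Finset.sum_le_sum_of_subset_of_nonneg hsub fun z _ _ => ?_
              refine mul_nonneg (V_nonneg _ _ _) ?_
              split_ifs <;> norm_num
    calc Q t h w ≤ Q t (Psi A R Λ) w := hle
      _ = ∫ s in (0:ℝ)..t, Q s g w := by rw [← hgen, hPsi0, sub_zero]
      _ ≤ 2 * (∑' m : ℤ, |(m : ℝ)| * p m) / R * t := hint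
      _ = 2 * (∑' m : ℤ, |(m : ℝ)| * p m) * t / R := by ring

end Pool.Agent.K1H20.EX
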